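import Pool.Agent.W792.WA.Stm
import Pool.Agent.W918.LL.Opr

/-!
WA-FREE: from local to quasi-local operators in the asymptotic freeness theorem.
-/

set_option autoImplicit false

namespace Pool.Agent.W563.WA.Free

open MeasureTheory Filter Pool.Agent.W792.LL Pool.Agent.W792.WA
open scoped Topology

noncomputable section

variable {d : ℕ}

/-- random operators -/
abbrev RO (d : ℕ) := ((Fin d → ℤ) → ℝ) → (l2 (Fin d → ℤ) →L[ℂ] l2 (Fin d → ℤ))

theorem sm_of_entries {T : RO d} (hm : ∀ u x, Measurable fun v => T v u x)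
    (u : l2 (Fin d → ℤ)) : StronglyMeasurable fun v => T v u := by
  have h1 : ∀ s : Finset (Fin d → ℤ), StronglyMeasurable
      (fun v => ∑ i ∈ s, (lp.single 2 i (T v u i) : l2 (Fin d → ℤ))) := by
    intro s
    refine Finset.stronglyMeasurable_fun_sum _ fun i _ => ?_
    exact (lp.isometry_single (E := fun _ : Fin d → ℤ => ℂ) (p := 2) i).continuous
      |>.comp_stronglyMeasurable (hm u i).stronglyMeasurable
  refine stronglyMeasurable_of_tendsto (f := fun s v => ∑ i ∈ s,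
    (lp.single 2 i (T v u i) : l2 (Fin d → ℤ))) atTop h1 ?_
  rw [tendsto_pi_nhds]
  intro v
  have h2 := lp.hasSum_single (p := 2) (E := fun _ : Fin d → ℤ => ℂ) (by norm_num) (T v u)
  rw [HasSum, SummationFilter.unconditional_filter] at h2
  exact h2

theorem int_app (P : Measure ((Fin d → ℤ) → ℝ)) [IsProbabilityMeasure P] {T : RO d} {C : ℝ}
    (hb : ∀ v, ‖T v‖ ≤ C) (hm : ∀ u x, Measurable fun v => T v u x) (u : l2 (Fin d → ℤ)) :
    Integrable (fun v => T v u) P := by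
  refine (integrable_const (C * ‖u‖)).mono' (sm_of_entries hm u).aestronglyMeasurable
    (ae_of_all _ fun v => ?_)
  exact ((T v).le_opNorm u).trans (mul_le_mul_of_nonneg_right (hb v) (norm_nonneg _))

/-- the mean of a bounded random operator -/
theorem exists_mean (P : Measure ((Fin d → ℤ) → ℝ)) [IsProbabilityMeasure P] {T : RO d} {C : ℝ}
    (hb : ∀ v, ‖T v‖ ≤ C) (hm : ∀ u x, Measurable fun v => T v u x) :
    ∃ M : l2 (Fin d → ℤ) →L[ℂ] l2 (Fin d → ℤ), ∀ u, M u = ∫ v, T v u ∂P := by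
  refine ⟨LinearMap.mkContinuous
    { toFun := fun u => ∫ v, T v u ∂P
      map_add' := fun u w => ?_
      map_smul' := fun c u => ?_ } C (fun u => ?_), fun u => rfl⟩
  · simp only [map_add]
    exact integral_add (int_app P hb hm u) (int_app P hb hm w)
  · simp only [map_smul, RingHom.id_apply]
    exact integral_smul c _
  · simp only [LinearMap.coe_mk, AddHom.coe_mk]
    have h1 : ‖∫ v, T v u ∂P‖ ≤ ∫ _v, C * ‖u‖ ∂P :=
      norm_integral_le_of_norm_le (integrable_const _) (ae_of_all _ fun v =>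
        ((T v).le_opNorm u).trans (mul_le_mul_of_nonneg_right (hb v) (norm_nonneg _)))
    simpa using h1

theorem int_entry (P : Measure ((Fin d → ℤ) → ℝ)) [IsProbabilityMeasure P] {T : RO d} {C : ℝ}
    (hb : ∀ v, ‖T v‖ ≤ C) (hm : ∀ u x, Measurable fun v => T v u x) (u : l2 (Fin d → ℤ))
    (x : Fin d → ℤ) : (∫ v, T v u ∂P) x = ∫ v, T v u x ∂P := by
  have h := ContinuousLinearMap.integral_comp_comm
    (lp.evalCLM ℂ (fun _ : Fin d → ℤ => ℂ) 2 x) (int_app P hb hm u)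
  exact h.symm

theorem clm_zero {M : l2 (Fin d → ℤ) →L[ℂ] l2 (Fin d → ℤ)} (h : ∀ y, M (dl y) = 0)
    (u : l2 (Fin d → ℤ)) : M u = 0 := by
  have h2 := lp.hasSum_single (p := 2) (E := fun _ : Fin d → ℤ => ℂ) (by norm_num) u
  have h3 := h2.mapL M
  have h4 : (fun i => M (lp.single 2 i (u i))) = fun _ => 0 := by
    funext i
    have h5 : (lp.single 2 i (u i) : l2 (Fin d → ℤ)) = u i • dl i := by
      unfold dl
      rw [← lp.single_smul, smul_eq_mul, mul_one]
    rw [h5, map_smul, h i, smul_zero]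
  rw [h4] at h3
  exact h3.unique hasSum_zero

/-- a random operator whose entries have mean zero has mean zero -/
theorem mean_zero (P : Measure ((Fin d → ℤ) → ℝ)) [IsProbabilityMeasure P] {T : RO d} {C : ℝ}
    (hb : ∀ v, ‖T v‖ ≤ C) (hm : ∀ u x, Measurable fun v => T v u x)
    (h0 : ∀ x y, ∫ v, T v (dl y) x ∂P = 0) (u : l2 (Fin d → ℤ)) : ∫ v, T v u ∂P = 0 := by
  obtain ⟨M, hM⟩ := exists_mean P hb hm
  rw [← hM u]
  refine clm_zero (fun y => ?_) u
  rw [hM]
  ext x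
  rw [int_entry P hb hm, h0 x y]
  rfl

/-- difference of powers -/
theorem pow_diff {a A B : l2 (Fin d → ℤ) →L[ℂ] l2 (Fin d → ℤ)} {D η : ℝ} (hD : 1 ≤ D)
    (ha : ‖a‖ ≤ 1) (hA : ‖A‖ ≤ D) (hB : ‖B‖ ≤ D) (hη : ‖A - B‖ ≤ η) (n : ℕ) :
    ‖(a * A) ^ n‖ ≤ D ^ n ∧ ‖(a * B) ^ n‖ ≤ D ^ n ∧
      ‖(a * A) ^ n - (a * B) ^ n‖ ≤ n * D ^ n * η := by
  have hD0 : 0 ≤ D := zero_le_one.trans hD
  have hη0 : 0 ≤ η := (norm_nonneg _).trans hη
  have haA : ‖a * A‖ ≤ D := (norm_mul_le _ _).trans (by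
    calc ‖a‖ * ‖A‖ ≤ 1 * D := mul_le_mul ha hA (norm_nonneg _) zero_le_one
      _ = D := one_mul D)
  have haB : ‖a * B‖ ≤ D := (norm_mul_le _ _).trans (by
    calc ‖a‖ * ‖B‖ ≤ 1 * D := mul_le_mul ha hB (norm_nonneg _) zero_le_one
      _ = D := one_mul D)
  have haAB : ‖a * A - a * B‖ ≤ η := by
    rw [← mul_sub]
    refine (norm_mul_le _ _).trans ?_
    calc ‖a‖ * ‖A - B‖ ≤ 1 * η := mul_le_mul ha hη (norm_nonneg _) zero_le_one
      _ = η := one_mul η
  induction n with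
  | zero =>
      have h1 : ‖(1 : l2 (Fin d → ℤ) →L[ℂ] l2 (Fin d → ℤ))‖ ≤ 1 :=
        ContinuousLinearMap.norm_id_le
      refine ⟨by simpa using h1, by simpa using h1, by simp⟩
  | succ n ih =>
      obtain ⟨i1, i2, i3⟩ := ih
      have hDn : 0 ≤ D ^ n := pow_nonneg hD0 n
      refine ⟨?_, ?_, ?_⟩
      · rw [pow_succ, pow_succ]
        exact (norm_mul_le _ _).trans (mul_le_mul i1 haA (norm_nonneg _) hDn)
      · rw [pow_succ, pow_succ]
        exact (norm_mul_le _ _).trans (mul_le_mul i2 haB (norm_nonneg _) hDn)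
      · have e : (a * A) ^ (n + 1) - (a * B) ^ (n + 1)
            = (a * A) ^ n * (a * A - a * B) + ((a * A) ^ n - (a * B) ^ n) * (a * B) := by
          rw [pow_succ, pow_succ, mul_sub, sub_mul]
          abel
        rw [e]
        refine (norm_add_le _ _).trans ?_
        have j1 : ‖(a * A) ^ n * (a * A - a * B)‖ ≤ D ^ n * η :=
          (norm_mul_le _ _).trans (mul_le_mul i1 haAB (norm_nonneg _) hDn)
        have j2 : ‖((a * A) ^ n - (a * B) ^ n) * (a * B)‖ ≤ (n * D ^ n * η) * D :=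
          (norm_mul_le _ _).trans (mul_le_mul i3 haB (norm_nonneg _) (by positivity))
        have j3 : D ^ n * η ≤ D ^ (n + 1) * η := by
          rw [pow_succ]
          have : D ^ n * η * 1 ≤ D ^ n * η * D := mul_le_mul_of_nonneg_left hD (by positivity)
          nlinarith
        calc _ ≤ D ^ n * η + (n * D ^ n * η) * D := add_le_add j1 j2
          _ ≤ D ^ (n + 1) * η + (n * D ^ n * η) * D := by linarith
          _ = _ := by push_cast; ring

theorem tel (A B Y Z : l2 (Fin d → ℤ) →L[ℂ] l2 (Fin d → ℤ)) (u : l2 (Fin d → ℤ)) :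
    A (Y u) - B (Z u) = A ((Y - Z) u) + (A - B) (Z u) := by
  change A (Y u) - B (Z u) = A (Y u - Z u) + (A (Z u) - B (Z u))
  rw [map_sub]
  abel

theorem isQL_one : IsQL (d := d) (fun _ => 1) := by
  intro ε hε
  refine ⟨0, 1, fun _ => 1, ⟨fun _ => ContinuousLinearMap.norm_id_le, ?_, fun _ _ _ _ _ => rfl,
    fun _ _ => measurable_const⟩, fun v => by simpa using hε.le⟩
  intro v x y hxy
  have hne : x ≠ y := by
    rintro rfl
    exact hxy (fun i => by simp)
  change (dl y : l2 (Fin d → ℤ)) x = 0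
  unfold dl
  rw [lp.single_apply_ne _ _ _ hne]

theorem isQL_pow (hQL : S_QL) {m : C(UnitAddTorus (Fin d), ℂ)} {Q : RO d} (hQ : IsQL Q) (n : ℕ) :
    IsQL (fun v => (opr m * Q v) ^ n) := by
  induction n with
  | zero =>
      simp only [pow_zero]
      exact isQL_one
  | succ n ih =>
      simp only [pow_succ]
      exact ((hQL d).2.2.1 _ _ ih
        ((hQL d).2.2.1 _ _ ((hQL d).1 m) hQ).2.2).2.2

theorem isQL_of_loc {R : ℕ} {C : ℝ} {Q : RO d} (h : IsLoc R C Q) : IsQL Q :=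
  fun ε hε => ⟨R, C, Q, h, fun v => by simpa using hε.le⟩

/-- WA-FREE -/
theorem main : Pool.Agent.W792.WA.S_FREEL → Pool.Agent.W792.WA.S_QL →
    Pool.Agent.W792.WA.S_FREE := by
  intro hFL hQL ν _ d Q hQ h0 n e he
  obtain ⟨⟨C₀, hC₀⟩, hQm⟩ := (hQL d).2.2.2.2 Q hQ
  set P := Pn ν (Fin d → ℤ) with hP
  set D : ℝ := |C₀| + 2 with hDdef
  have hD1 : 1 ≤ D := by have := abs_nonneg C₀; linarith
  have hD0 : 0 < D := by linarith
  set L : ℝ := 2 * ((n : ℝ) + 1) * D ^ (n + 1) with hL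
  have hLpos : 0 < L := by positivity
  set ε : ℝ := min 1 (min 1 (e / 4) / L) with hε
  have hεpos : 0 < ε := by
    rw [hε]
    exact lt_min one_pos (div_pos (lt_min one_pos (by linarith)) hLpos)
  have hε1 : ε ≤ 1 := min_le_left _ _
  have hεL : L * ε ≤ min 1 (e / 4) := by
    have h1 : ε ≤ min 1 (e / 4) / L := min_le_right _ _
    rw [le_div_iff₀ hLpos] at h1
    linarith
  have hη1 : L * ε ≤ 1 := hεL.trans (min_le_left _ _)
  have hη2 : L * ε ≤ e / 4 := hεL.trans (min_le_right _ _)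
  have hη0 : 0 ≤ L * ε := by positivity
  obtain ⟨R, C', Q', hloc, hQQ'⟩ := hQ ε hεpos
  obtain ⟨-, hQ'm⟩ := (hQL d).2.2.2.2 Q' (isQL_of_loc hloc)
  have hQn : ∀ v, ‖Q v‖ ≤ |C₀| := fun v => (hC₀ v).trans (le_abs_self _)
  have hQ'n : ∀ v, ‖Q' v‖ ≤ |C₀| + 1 := by
    intro v
    have e1 : Q' v = Q v - (Q v - Q' v) := by abel
    rw [e1]
    refine (norm_sub_le _ _).trans ?_
    have := hQQ' v
    have := hQn v
    linarith
  obtain ⟨M, hM⟩ := exists_mean P hQ'n hQ'm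
  have hMn : ‖M‖ ≤ ε := by
    refine M.opNorm_le_bound hεpos.le fun u => ?_
    have e1 : M u = ∫ v, (Q' v u - Q v u) ∂P := by
      rw [integral_sub (int_app P hQ'n hQ'm u) (int_app P hQn hQm u),
        mean_zero P hQn hQm h0 u, sub_zero, hM u]
    rw [e1]
    have h1 : ‖∫ v, (Q' v u - Q v u) ∂P‖ ≤ ∫ _v, ε * ‖u‖ ∂P := by
      refine norm_integral_le_of_norm_le (integrable_const _) (ae_of_all _ fun v => ?_)
      have e2 : Q' v u - Q v u = - ((Q v - Q' v) u) := by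
        change Q' v u - Q v u = -(Q v u - Q' v u)
        abel
      rw [e2, norm_neg]
      exact ((Q v - Q' v).le_opNorm u).trans (mul_le_mul_of_nonneg_right (hQQ' v) (norm_nonneg _))
    simpa using h1
  have hMe : ∀ x y, M (dl y) x = ∫ v, Q' v (dl y) x ∂P := by
    intro x y
    rw [hM, int_entry P hQ'n hQ'm]
  set Q₂ : RO d := fun v => Q' v - M with hQ₂
  have happ : ∀ v u x, Q₂ v u x = Q' v u x - M u x := fun v u x => rfl
  have hloc₂ : IsLoc R D Q₂ := by
    refine ⟨fun v => ?_, fun v x y hxy => ?_, fun x y v v' hvv' => ?_, fun x y => ?_⟩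
    · refine (norm_sub_le _ _).trans ?_
      have := hQ'n v
      linarith
    · rw [happ, hloc.range v x y hxy, hMe x y]
      have h1 : ∀ v, Q' v (dl y) x = 0 := fun v => hloc.range v x y hxy
      simp only [h1, integral_zero, sub_zero]
    · rw [happ, happ, hloc.loc x y v v' hvv']
    · exact (hloc.meas x y).sub_const _
  have hz₂ : ∀ x y, ∫ v, Q₂ v (dl y) x ∂P = 0 := by
    intro x y
    simp only [happ]
    have i1 : Integrable (fun v => Q' v (dl y) x) P := by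
      have h1 := ContinuousLinearMap.integrable_comp
        (lp.evalCLM ℂ (fun _ : Fin d → ℤ => ℂ) 2 x) (int_app P hQ'n hQ'm (dl y))
      exact h1
    rw [integral_sub i1 (integrable_const _), hMe x y]
    simp
  have hdiff : ∀ v, ‖Q v - Q₂ v‖ ≤ 2 * ε := by
    intro v
    have e1 : Q v - Q₂ v = (Q v - Q' v) + M := by
      simp only [hQ₂]
      abel
    rw [e1]
    refine (norm_add_le _ _).trans ?_
    have := hQQ' v
    linarith
  have hQ₂n : ∀ v, ‖Q₂ v‖ ≤ D := hloc₂.bound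
  have hQD : ∀ v, ‖Q v‖ ≤ D := fun v => (hQn v).trans (by linarith)
  have hQ₂L : IsQL Q₂ := isQL_of_loc hloc₂
  obtain ⟨δ, hδ, hfree⟩ := hFL ν d R D n (e / 4) (by linarith)
  refine ⟨δ, hδ, fun m hm hmδ u hu => ?_⟩
  obtain ⟨f1, f2⟩ := hfree Q₂ hloc₂ hz₂ m hm hmδ u hu
  have hopr : ‖opr m‖ ≤ 1 := ((Pool.Agent.W918.LL.main d m m).2.1).trans hm
  have hpw := fun v => pow_diff (a := opr m) hD1 hopr (hQD v) (hQ₂n v) (hdiff v) n
  -- measurability and integrability
  have qA : IsQL (fun v => (opr m * Q v) ^ n) := isQL_pow hQL hQ n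
  have qB : IsQL (fun v => (opr m * Q₂ v) ^ n) := isQL_pow hQL hQ₂L n
  have mA := ((hQL d).2.2.2.2 _ qA).2
  have mB := ((hQL d).2.2.2.2 _ qB).2
  have mQA := ((hQL d).2.2.2.2 _ ((hQL d).2.2.1 _ _ hQ qA).2.2).2
  have mQB := ((hQL d).2.2.2.2 _ ((hQL d).2.2.1 _ _ hQ₂L qB).2.2).2
  have hDn : 0 ≤ D ^ n := pow_nonneg hD0.le n
  refine ⟨fun w hw => ?_, fun hn x => ?_⟩
  · have bA : ∀ v, ‖Q v * (opr m * Q v) ^ n‖ ≤ D * D ^ n := fun v =>
      (norm_mul_le _ _).trans (mul_le_mul (hQD v) (hpw v).1 (norm_nonneg _) hD0.le)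
    have bB : ∀ v, ‖Q₂ v * (opr m * Q₂ v) ^ n‖ ≤ D * D ^ n := fun v =>
      (norm_mul_le _ _).trans (mul_le_mul (hQ₂n v) (hpw v).2.1 (norm_nonneg _) hD0.le)
    have iA : Integrable (fun v => (Q v * (opr m * Q v) ^ n) u) P := int_app P bA mQA u
    have iB : Integrable (fun v => (Q₂ v * (opr m * Q₂ v) ^ n) u) P := int_app P bB mQB u
    have jA : Integrable (fun v => inner ℂ w (Q v (((opr m * Q v) ^ n) u))) P :=
      iA.const_inner (𝕜 := ℂ) w
    have jB : Integrable (fun v => inner ℂ w (Q₂ v (((opr m * Q₂ v) ^ n) u))) P :=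
      iB.const_inner (𝕜 := ℂ) w
    have hd : ∀ v, ‖inner ℂ w (Q v (((opr m * Q v) ^ n) u))
        - inner ℂ w (Q₂ v (((opr m * Q₂ v) ^ n) u))‖ ≤ L * ε := by
      intro v
      obtain ⟨k1, k2, k3⟩ := hpw v
      rw [← inner_sub_right]
      refine (norm_inner_le_norm _ _).trans ?_
      have e1 : Q v (((opr m * Q v) ^ n) u) - Q₂ v (((opr m * Q₂ v) ^ n) u)
          = Q v (((opr m * Q v) ^ n - (opr m * Q₂ v) ^ n) u)
            + (Q v - Q₂ v) (((opr m * Q₂ v) ^ n) u) := tel _ _ _ _ u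
      have g1 : ‖((opr m * Q v) ^ n - (opr m * Q₂ v) ^ n) u‖ ≤ (n * D ^ n * (2 * ε)) * 1 :=
        (ContinuousLinearMap.le_opNorm _ _).trans
          (mul_le_mul k3 hu (norm_nonneg _) (by positivity))
      have g2 : ‖Q v (((opr m * Q v) ^ n - (opr m * Q₂ v) ^ n) u)‖
          ≤ D * ((n * D ^ n * (2 * ε)) * 1) :=
        (ContinuousLinearMap.le_opNorm _ _).trans
          (mul_le_mul (hQD v) g1 (norm_nonneg _) hD0.le)
      have g3 : ‖((opr m * Q₂ v) ^ n) u‖ ≤ D ^ n * 1 :=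
        (ContinuousLinearMap.le_opNorm _ _).trans
          (mul_le_mul k2 hu (norm_nonneg _) hDn)
      have g4 : ‖(Q v - Q₂ v) (((opr m * Q₂ v) ^ n) u)‖ ≤ (2 * ε) * (D ^ n * 1) :=
        (ContinuousLinearMap.le_opNorm _ _).trans
          (mul_le_mul (hdiff v) g3 (norm_nonneg _) (by positivity))
      have g5 : ‖Q v (((opr m * Q v) ^ n) u) - Q₂ v (((opr m * Q₂ v) ^ n) u)‖ ≤ L * ε := by
        rw [e1]
        refine (norm_add_le _ _).trans ?_
        have g6 : (2 * ε) * (D ^ n * 1) ≤ (2 * ε) * D ^ (n + 1) := by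
          rw [pow_succ]
          refine mul_le_mul_of_nonneg_left ?_ (by positivity)
          exact mul_le_mul_of_nonneg_left hD1 hDn
        have g7 : D * ((n * D ^ n * (2 * ε)) * 1) + (2 * ε) * D ^ (n + 1) = L * ε := by
          rw [hL, pow_succ]
          ring
        linarith
      calc ‖w‖ * ‖Q v (((opr m * Q v) ^ n) u) - Q₂ v (((opr m * Q₂ v) ^ n) u)‖
          ≤ 1 * (L * ε) := mul_le_mul hw g5 (norm_nonneg _) zero_le_one
        _ = L * ε := one_mul _
    have e2 : ∫ v, inner ℂ w (Q v (((opr m * Q v) ^ n) u)) ∂P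
        = ∫ v, inner ℂ w (Q₂ v (((opr m * Q₂ v) ^ n) u)) ∂P
          + ∫ v, (inner ℂ w (Q v (((opr m * Q v) ^ n) u))
            - inner ℂ w (Q₂ v (((opr m * Q₂ v) ^ n) u))) ∂P := by
      rw [integral_sub jA jB]
      ring
    rw [e2]
    refine (norm_add_le _ _).trans ?_
    have h3 : ‖∫ v, (inner ℂ w (Q v (((opr m * Q v) ^ n) u))
            - inner ℂ w (Q₂ v (((opr m * Q₂ v) ^ n) u))) ∂P‖ ≤ ∫ _v, L * ε ∂P :=
      norm_integral_le_of_norm_le (integrable_const _) (ae_of_all _ hd)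
    have h4 : ∫ _v : (Fin d → ℤ) → ℝ, L * ε ∂P = L * ε := by simp
    rw [h4] at h3
    have h5 := f1 w hw
    linarith
  · have hx : ∀ z : l2 (Fin d → ℤ), ‖z x‖ ≤ ‖z‖ := fun z =>
      lp.norm_apply_le_norm (by norm_num) z x
    have iA : Integrable (fun v => ‖(((opr m * Q v) ^ n) u) x‖ ^ 2) P := by
      refine (integrable_const ((D ^ n * 1) ^ 2)).mono'
        ((mA u x).norm.pow_const 2).aestronglyMeasurable (ae_of_all _ fun v => ?_)
      rw [Real.norm_eq_abs, abs_of_nonneg (sq_nonneg _)]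
      refine pow_le_pow_left₀ (norm_nonneg _) ((hx _).trans ?_) 2
      exact (ContinuousLinearMap.le_opNorm _ _).trans
        (mul_le_mul (hpw v).1 hu (norm_nonneg _) hDn)
    have iB : Integrable (fun v => ‖(((opr m * Q₂ v) ^ n) u) x‖ ^ 2) P := by
      refine (integrable_const ((D ^ n * 1) ^ 2)).mono'
        ((mB u x).norm.pow_const 2).aestronglyMeasurable (ae_of_all _ fun v => ?_)
      rw [Real.norm_eq_abs, abs_of_nonneg (sq_nonneg _)]
      refine pow_le_pow_left₀ (norm_nonneg _) ((hx _).trans ?_) 2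
      exact (ContinuousLinearMap.le_opNorm _ _).trans
        (mul_le_mul (hpw v).2.1 hu (norm_nonneg _) hDn)
    have hle : ∀ v, ‖(((opr m * Q v) ^ n) u) x‖ ^ 2
        ≤ 2 * ‖(((opr m * Q₂ v) ^ n) u) x‖ ^ 2 + 2 * (L * ε) ^ 2 := by
      intro v
      obtain ⟨k1, k2, k3⟩ := hpw v
      have g1 : ‖((opr m * Q v) ^ n - (opr m * Q₂ v) ^ n) u‖ ≤ (n * D ^ n * (2 * ε)) * 1 :=
        (ContinuousLinearMap.le_opNorm _ _).trans
          (mul_le_mul k3 hu (norm_nonneg _) (by positivity))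
      have g2 : (n * D ^ n * (2 * ε)) * 1 ≤ L * ε := by
        have g3 : D ^ n ≤ D ^ (n + 1) := pow_le_pow_right₀ hD1 (Nat.le_succ n)
        have g4 : (n : ℝ) * D ^ n ≤ ((n : ℝ) + 1) * D ^ (n + 1) :=
          mul_le_mul (by linarith) g3 hDn (by positivity)
        rw [hL]
        nlinarith
      have g5 : ‖(((opr m * Q v) ^ n) u) x - (((opr m * Q₂ v) ^ n) u) x‖ ≤ L * ε := by
        have e1 : (((opr m * Q v) ^ n) u) x - (((opr m * Q₂ v) ^ n) u) x
            = (((opr m * Q v) ^ n - (opr m * Q₂ v) ^ n) u) x := rfl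
        rw [e1]
        exact (hx _).trans (g1.trans g2)
      have g6 : ‖(((opr m * Q v) ^ n) u) x‖ ≤ ‖(((opr m * Q₂ v) ^ n) u) x‖ + L * ε := by
        have := norm_sub_norm_le ((((opr m * Q v) ^ n) u) x) ((((opr m * Q₂ v) ^ n) u) x)
        linarith
      have g7 := pow_le_pow_left₀ (norm_nonneg _) g6 2
      nlinarith [sq_nonneg (‖(((opr m * Q₂ v) ^ n) u) x‖ - L * ε)]
    have h1 : ∫ v, ‖(((opr m * Q v) ^ n) u) x‖ ^ 2 ∂P
        ≤ ∫ v, (2 * ‖(((opr m * Q₂ v) ^ n) u) x‖ ^ 2 + 2 * (L * ε) ^ 2) ∂P :=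
      integral_mono iA ((iB.const_mul 2).add (integrable_const _)) hle
    rw [integral_add (iB.const_mul 2) (integrable_const _), integral_const_mul] at h1
    have h2 : ∫ _v : (Fin d → ℤ) → ℝ, 2 * (L * ε) ^ 2 ∂P = 2 * (L * ε) ^ 2 := by simp
    rw [h2] at h1
    have h3 := f2 hn x
    have h4 : (L * ε) ^ 2 ≤ e / 4 := by nlinarith
    linarith

end

end Pool.Agent.W563.WA.Free
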